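import Mathlib

/-!
Abstract bar construction of a (non-unital) differential associative algebra on a based space, by recursion on lists;
lifting lemma L1 (helper46, MP_8b67e9_al).
-/

set_option autoImplicit false

namespace Pool.Agent.LibSt46

open Finsupp

/-- A differential associative algebra on the space with basis `X`: a differential `d`, a sign involution `e`
(`(-1)^degree`) and an associative product. -/
structure DAlg (X : Type*) where
  d : (X →₀ ℚ) →ₗ[ℚ] (X →₀ ℚ)
  e : (X →₀ ℚ) →ₗ[ℚ] (X →₀ ℚ)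
  mul : (X →₀ ℚ) →ₗ[ℚ] (X →₀ ℚ) →ₗ[ℚ] (X →₀ ℚ)
  dd : ∀ a, d (d a) = 0
  ee : ∀ a, e (e a) = a
  de : ∀ a, d (e a) = - e (d a)
  assoc : ∀ a b c, mul (mul a b) c = mul a (mul b c)
  emul : ∀ a b, e (mul a b) = mul (e a) (e b)
  leib : ∀ a b, d (mul a b) = mul (d a) b + mul (e a) (d b)

variable {X X' : Type*}

/-- The bilinear extension of `List.cons`. -/
noncomputable def consB : (X →₀ ℚ) →ₗ[ℚ] (List X →₀ ℚ) →ₗ[ℚ] (List X →₀ ℚ) :=
  Finsupp.linearCombination ℚ (fun x : X =>
    (Finsupp.linearCombination ℚ (fun l : List X => Finsupp.single (x :: l) (1 : ℚ)) :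
      (List X →₀ ℚ) →ₗ[ℚ] (List X →₀ ℚ)))

theorem consB_single (x : X) (l : List X) :
    consB (Finsupp.single x (1 : ℚ)) (Finsupp.single l (1 : ℚ)) = Finsupp.single (x :: l) (1 : ℚ) := by
  simp [consB]

/-- Product of `a` with the first entry of a list; zero on the empty list. -/
noncomputable def mergeHead (A : DAlg X) : (X →₀ ℚ) →ₗ[ℚ] (List X →₀ ℚ) →ₗ[ℚ] (List X →₀ ℚ) :=
  (Finsupp.linearCombination ℚ (fun l : List X =>
    (match l with
      | [] => 0
      | y :: l' => (consB.flip (Finsupp.single l' (1 : ℚ))).comp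
          ((A.mul).flip (Finsupp.single y (1 : ℚ))) :
        (X →₀ ℚ) →ₗ[ℚ] (List X →₀ ℚ)))).flip

theorem mergeHead_nil (A : DAlg X) (a : X →₀ ℚ) :
    mergeHead A a (Finsupp.single [] (1 : ℚ)) = 0 := by
  simp [mergeHead]

theorem mergeHead_cons (A : DAlg X) (a : X →₀ ℚ) (b : X →₀ ℚ) (w : List X →₀ ℚ) :
    mergeHead A a (consB b w) = consB (A.mul a b) w := by
  induction b using Finsupp.induction_linear with
  | zero => simp
  | add f g hf hg => simp only [map_add, LinearMap.add_apply, hf, hg]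
  | single y r =>
    induction w using Finsupp.induction_linear with
    | zero => simp
    | add f g hf hg => simp only [map_add, hf, hg]
    | single l s =>
      have h1 : consB (Finsupp.single y r) (Finsupp.single l s)
          = (r * s) • (Finsupp.single (y :: l) (1 : ℚ) : List X →₀ ℚ) := by
        simp [consB]
      have h2 : (Finsupp.single y r : X →₀ ℚ) = r • Finsupp.single y (1 : ℚ) := by simp
      have h3 : (Finsupp.single l s : List X →₀ ℚ) = s • Finsupp.single l (1 : ℚ) := by simp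
      rw [h1, h2, h3]
      simp only [map_smul, LinearMap.smul_apply]
      rw [← mul_smul]
      congr 1
      · ring
      · simp [mergeHead]

/-- The bar differential on basis lists. -/
noncomputable def DBl (A : DAlg X) : List X → (List X →₀ ℚ)
  | [] => 0
  | x :: l => consB (A.d (Finsupp.single x 1)) (Finsupp.single l 1)
      - consB (A.e (Finsupp.single x 1)) (DBl A l)
      + mergeHead A (A.e (Finsupp.single x 1)) (Finsupp.single l 1)

/-- The bar differential. -/
noncomputable def DB (A : DAlg X) : (List X →₀ ℚ) →ₗ[ℚ] (List X →₀ ℚ) :=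
  Finsupp.linearCombination ℚ (DBl A)

theorem DB_single (A : DAlg X) (l : List X) : DB A (Finsupp.single l 1) = DBl A l := by
  simp [DB]

theorem DB_nil (A : DAlg X) : DB A (Finsupp.single [] 1) = 0 := by
  simp [DB, DBl]

/-- An induction principle: a bilinear identity in `(a, w)` need only be checked on basis elements. -/
theorem bil_ext {V : Type*} [AddCommGroup V] [Module ℚ V]
    (F G : (X →₀ ℚ) →ₗ[ℚ] (List X →₀ ℚ) →ₗ[ℚ] V)
    (h : ∀ x l, F (Finsupp.single x 1) (Finsupp.single l 1) = G (Finsupp.single x 1) (Finsupp.single l 1)) :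
    F = G := by
  ext x l
  simpa using h x l

theorem DB_cons (A : DAlg X) (a : X →₀ ℚ) (w : List X →₀ ℚ) :
    DB A (consB a w) = consB (A.d a) w - consB (A.e a) (DB A w) + mergeHead A (A.e a) w := by
  have : consB.compr₂ (DB A) = consB.comp A.d - (consB.comp A.e).compl₂ (DB A)
      + (mergeHead A).comp A.e := by
    apply bil_ext
    intro x l
    simp only [LinearMap.compr₂_apply, LinearMap.add_apply, LinearMap.sub_apply, LinearMap.comp_apply,
      LinearMap.compl₂_apply]
    rw [consB_single, DB_single, DB_single]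
    rfl
  have h2 := LinearMap.congr_fun₂ this a w
  simpa [LinearMap.compr₂_apply, LinearMap.compl₂_apply] using h2


theorem mergeHead_merge (A : DAlg X) (a : X →₀ ℚ) (b : X →₀ ℚ) (w : List X →₀ ℚ) :
    mergeHead A a (mergeHead A b w) = mergeHead A (A.mul a b) w := by
  induction w using Finsupp.induction_linear with
  | zero => simp
  | add f g hf hg => simp only [map_add, hf, hg]
  | single l s =>
    have h3 : (Finsupp.single l s : List X →₀ ℚ) = s • Finsupp.single l (1 : ℚ) := by simp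
    rw [h3]
    simp only [map_smul]
    congr 1
    cases l with
    | nil => simp [mergeHead_nil]
    | cons y l' =>
      rw [← consB_single, mergeHead_cons, mergeHead_cons, mergeHead_cons, A.assoc]

/-- Induction on lists for identities linear in `w : List X →₀ ℚ`. -/
theorem listInd {V : Type*} [AddCommGroup V] [Module ℚ V]
    (F G : (List X →₀ ℚ) →ₗ[ℚ] V)
    (h0 : F (Finsupp.single [] 1) = G (Finsupp.single [] 1))
    (h1 : ∀ (a : X →₀ ℚ) (w : List X →₀ ℚ), F w = G w → F (consB a w) = G (consB a w)) : F = G := by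
  have key : ∀ l : List X, F (Finsupp.single l 1) = G (Finsupp.single l 1) := by
    intro l
    induction l with
    | nil => exact h0
    | cons x l ih =>
      rw [← consB_single]
      exact h1 _ _ ih
  ext l
  simpa using key l

theorem DB_DB (A : DAlg X) (w : List X →₀ ℚ) : DB A (DB A w) = 0 := by
  have : (DB A).comp (DB A) = 0 := by
    have gen : ∀ l : List X, DB A (DB A (Finsupp.single l 1)) = 0 := by
      intro l
      induction l with
      | nil => simp [DB_nil]
      | cons x l ih =>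
        rw [← consB_single]
        set a : X →₀ ℚ := Finsupp.single x 1 with ha
        set w : List X →₀ ℚ := Finsupp.single l 1 with hw
        rw [DB_cons]
        rw [map_add, map_sub, DB_cons, DB_cons, ih]
        -- the derivative of the merge
        have hm : DB A (mergeHead A (A.e a) w) =
            mergeHead A (A.d (A.e a)) w + mergeHead A a (DB A w) - 0 := by
          cases l with
          | nil =>
            have : w = Finsupp.single [] 1 := hw
            rw [this]
            simp [mergeHead_nil, DB_nil]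
          | cons y l' =>
            have hw' : w = consB (Finsupp.single y 1) (Finsupp.single l' 1) := by
              rw [hw, consB_single]
            rw [hw', mergeHead_cons, DB_cons, DB_cons, map_add, map_sub, mergeHead_cons, mergeHead_cons,
              mergeHead_cons, mergeHead_merge, A.leib, A.emul, A.ee]
            simp only [map_add, LinearMap.add_apply]
            abel
        rw [hm]
        simp only [A.dd, A.ee, A.de, map_zero, LinearMap.zero_apply, map_neg, LinearMap.neg_apply]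
        abel
    ext l : 1
    ext1
    simpa using gen l
  exact LinearMap.congr_fun this w


/-- Entrywise map of lists. -/
noncomputable def mapBl (f : (X →₀ ℚ) →ₗ[ℚ] (X' →₀ ℚ)) : List X → (List X' →₀ ℚ)
  | [] => Finsupp.single [] 1
  | x :: l => consB (f (Finsupp.single x 1)) (mapBl f l)

noncomputable def mapB (f : (X →₀ ℚ) →ₗ[ℚ] (X' →₀ ℚ)) : (List X →₀ ℚ) →ₗ[ℚ] (List X' →₀ ℚ) :=
  Finsupp.linearCombination ℚ (mapBl f)

theorem mapB_nil (f : (X →₀ ℚ) →ₗ[ℚ] (X' →₀ ℚ)) :
    mapB f (Finsupp.single [] 1) = Finsupp.single [] 1 := by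
  simp [mapB, mapBl]

theorem mapB_cons (f : (X →₀ ℚ) →ₗ[ℚ] (X' →₀ ℚ)) (a : X →₀ ℚ) (w : List X →₀ ℚ) :
    mapB f (consB a w) = consB (f a) (mapB f w) := by
  have : consB.compr₂ (mapB f) = (consB.comp f).compl₂ (mapB f) := by
    apply bil_ext
    intro x l
    simp only [LinearMap.compr₂_apply, LinearMap.comp_apply, LinearMap.compl₂_apply]
    rw [consB_single]
    simp [mapB, mapBl]
  simpa [LinearMap.compr₂_apply, LinearMap.compl₂_apply] using LinearMap.congr_fun₂ this a w

/-- Morphisms. -/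
structure IsMor (A : DAlg X) (A' : DAlg X') (f : (X →₀ ℚ) →ₗ[ℚ] (X' →₀ ℚ)) : Prop where
  d : ∀ a, f (A.d a) = A'.d (f a)
  e : ∀ a, f (A.e a) = A'.e (f a)
  mul : ∀ a b, f (A.mul a b) = A'.mul (f a) (f b)

theorem mapB_merge (A : DAlg X) (A' : DAlg X') (f : (X →₀ ℚ) →ₗ[ℚ] (X' →₀ ℚ)) (hf : IsMor A A' f)
    (a : X →₀ ℚ) (w : List X →₀ ℚ) :
    mapB f (mergeHead A a w) = mergeHead A' (f a) (mapB f w) := by
  have : (mapB f).comp (mergeHead A a) = (mergeHead A' (f a)).comp (mapB f) := by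
    apply listInd
    · simp [mergeHead_nil, mapB_nil]
    · intro b w _
      simp only [LinearMap.comp_apply]
      rw [mergeHead_cons, mapB_cons, mapB_cons, mergeHead_cons, hf.mul]
  exact LinearMap.congr_fun this w

theorem mapB_DB (A : DAlg X) (A' : DAlg X') (f : (X →₀ ℚ) →ₗ[ℚ] (X' →₀ ℚ)) (hf : IsMor A A' f)
    (w : List X →₀ ℚ) : mapB f (DB A w) = DB A' (mapB f w) := by
  have : (mapB f).comp (DB A) = (DB A').comp (mapB f) := by
    apply listInd
    · simp [DB_nil, mapB_nil]
    · intro a w ih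
      simp only [LinearMap.comp_apply] at ih ⊢
      rw [DB_cons, mapB_cons, DB_cons, map_add, map_sub, mapB_cons, mapB_cons, ih,
        mapB_merge A A' f hf, hf.d, hf.e]
  exact LinearMap.congr_fun this w

/-- The column part of the bar differential. -/
noncomputable def DVl (A : DAlg X) : List X → (List X →₀ ℚ)
  | [] => 0
  | x :: l => consB (A.d (Finsupp.single x 1)) (Finsupp.single l 1)
      - consB (A.e (Finsupp.single x 1)) (DVl A l)

noncomputable def DV (A : DAlg X) : (List X →₀ ℚ) →ₗ[ℚ] (List X →₀ ℚ) :=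
  Finsupp.linearCombination ℚ (DVl A)

theorem DV_nil (A : DAlg X) : DV A (Finsupp.single [] 1) = 0 := by
  simp [DV, DVl]

theorem DV_cons (A : DAlg X) (a : X →₀ ℚ) (w : List X →₀ ℚ) :
    DV A (consB a w) = consB (A.d a) w - consB (A.e a) (DV A w) := by
  have : consB.compr₂ (DV A) = consB.comp A.d - (consB.comp A.e).compl₂ (DV A) := by
    apply bil_ext
    intro x l
    simp only [LinearMap.compr₂_apply, LinearMap.sub_apply, LinearMap.comp_apply,
      LinearMap.compl₂_apply]
    rw [consB_single]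
    simp [DV, DVl]
  simpa [LinearMap.compr₂_apply, LinearMap.compl₂_apply] using LinearMap.congr_fun₂ this a w

/-- The contraction of the columns. -/
noncomputable def HBl (A : DAlg X) (p H : (X →₀ ℚ) →ₗ[ℚ] (X →₀ ℚ)) : List X → (List X →₀ ℚ)
  | [] => 0
  | x :: l => consB (H (Finsupp.single x 1)) (Finsupp.single l 1)
      - consB (A.e (p (Finsupp.single x 1))) (HBl A p H l)

noncomputable def HB (A : DAlg X) (p H : (X →₀ ℚ) →ₗ[ℚ] (X →₀ ℚ)) : (List X →₀ ℚ) →ₗ[ℚ] (List X →₀ ℚ) :=
  Finsupp.linearCombination ℚ (HBl A p H)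

theorem HB_nil (A : DAlg X) (p H : (X →₀ ℚ) →ₗ[ℚ] (X →₀ ℚ)) : HB A p H (Finsupp.single [] 1) = 0 := by
  simp [HB, HBl]

theorem HB_cons (A : DAlg X) (p H : (X →₀ ℚ) →ₗ[ℚ] (X →₀ ℚ)) (a : X →₀ ℚ) (w : List X →₀ ℚ) :
    HB A p H (consB a w) = consB (H a) w - consB (A.e (p a)) (HB A p H w) := by
  have : consB.compr₂ (HB A p H) = consB.comp H - (consB.comp (A.e.comp p)).compl₂ (HB A p H) := by
    apply bil_ext
    intro x l
    simp only [LinearMap.compr₂_apply, LinearMap.sub_apply, LinearMap.comp_apply,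
      LinearMap.compl₂_apply]
    rw [consB_single]
    simp [HB, HBl]
  simpa [LinearMap.compr₂_apply, LinearMap.compl₂_apply] using LinearMap.congr_fun₂ this a w

/-- `DV HB + HB DV = 1 - p` on lists. -/
theorem DV_HB (A : DAlg X) (p H : (X →₀ ℚ) →ₗ[ℚ] (X →₀ ℚ))
    (hpd : ∀ a, p (A.d a) = A.d (p a)) (hpe : ∀ a, p (A.e a) = A.e (p a))
    (hHe : ∀ a, H (A.e a) = - A.e (H a))
    (hH : ∀ a, A.d (H a) + H (A.d a) = a - p a) (w : List X →₀ ℚ) :
    DV A (HB A p H w) + HB A p H (DV A w) = w - mapB p w := by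
  have : (DV A).comp (HB A p H) + (HB A p H).comp (DV A) = LinearMap.id - mapB p := by
    apply listInd
    · simp [DV_nil, HB_nil, mapB_nil]
    · intro a w ih
      simp only [LinearMap.comp_apply, LinearMap.add_apply, LinearMap.sub_apply, LinearMap.id_apply] at ih ⊢
      rw [DV_cons, HB_cons, map_sub, map_sub, DV_cons, DV_cons, HB_cons, HB_cons, mapB_cons]
      simp only [hpe, hpd, hHe, A.ee, A.de, map_neg, LinearMap.neg_apply]
      have e1 : consB (A.d (H a)) w = consB (a - p a - H (A.d a)) w := by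
        rw [← hH]; simp
      have e2 : mapB p w = w - (DV A (HB A p H w) + HB A p H (DV A w)) := by
        rw [ih]; abel
      rw [e1, e2]
      simp only [map_sub, map_add, LinearMap.sub_apply]
      abel
  exact LinearMap.congr_fun this w


/-- Lists of length at most `p`. -/
def LB (X : Type*) (p : ℕ) : Submodule ℚ (List X →₀ ℚ) :=
  Finsupp.supported ℚ ℚ {l : List X | l.length ≤ p}

theorem single_mem_LB {l : List X} {p : ℕ} (h : l.length ≤ p) (c : ℚ) :
    Finsupp.single l c ∈ LB X p :=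
  Finsupp.single_mem_supported ℚ c (by simpa using h)

theorem LB_mono {p q : ℕ} (h : p ≤ q) {w : List X →₀ ℚ} (hw : w ∈ LB X p) : w ∈ LB X q :=
  Finsupp.supported_mono (s := {l : List X | l.length ≤ p}) (t := {l : List X | l.length ≤ q})
    (fun _ hl => le_trans hl h) hw

theorem LB_ind {V : Type*} [AddCommGroup V] [Module ℚ V] (F : (List X →₀ ℚ) →ₗ[ℚ] V) (S : Submodule ℚ V)
    (p : ℕ) (h : ∀ l : List X, l.length ≤ p → F (Finsupp.single l 1) ∈ S) {w : List X →₀ ℚ}
    (hw : w ∈ LB X p) : F w ∈ S := by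
  have : w ∈ S.comap F := by
    rw [LB, Finsupp.supported_eq_span_single] at hw
    refine Submodule.span_le.2 ?_ hw
    rintro _ ⟨l, hl, rfl⟩
    exact h l hl
  exact this

theorem consB_mem_LB (a : X →₀ ℚ) {w : List X →₀ ℚ} {p : ℕ} (hw : w ∈ LB X p) :
    consB a w ∈ LB X (p + 1) := by
  refine LB_ind (consB a) (LB X (p + 1)) p ?_ hw
  intro l hl
  induction a using Finsupp.induction_linear with
  | zero => simp
  | add f g hf hg => rw [map_add, LinearMap.add_apply]; exact add_mem hf hg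
  | single x r =>
    have : (Finsupp.single x r : X →₀ ℚ) = r • Finsupp.single x (1 : ℚ) := by simp
    rw [this, map_smul, LinearMap.smul_apply, consB_single]
    exact Submodule.smul_mem _ _ (single_mem_LB (by simpa using hl) 1)

theorem mergeHead_mem_LB (A : DAlg X) (a : X →₀ ℚ) {w : List X →₀ ℚ} {p : ℕ} (hw : w ∈ LB X p) :
    mergeHead A a w ∈ LB X p := by
  refine LB_ind (mergeHead A a) (LB X p) p ?_ hw
  intro l hl
  cases l with
  | nil => rw [mergeHead_nil]; exact zero_mem _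
  | cons y l' =>
    rw [← consB_single, mergeHead_cons]
    obtain ⟨q, rfl⟩ : ∃ q, p = q + 1 := ⟨p - 1, by simp at hl; omega⟩
    exact consB_mem_LB _ (single_mem_LB (by simpa using hl) 1)

theorem HB_mem_LB (A : DAlg X) (P H : (X →₀ ℚ) →ₗ[ℚ] (X →₀ ℚ)) {w : List X →₀ ℚ} {p : ℕ}
    (hw : w ∈ LB X p) : HB A P H w ∈ LB X p := by
  refine LB_ind (HB A P H) (LB X p) p ?_ hw
  intro l
  clear hw
  induction l generalizing p with
  | nil => intro _; rw [HB_nil]; exact zero_mem _
  | cons y l' ih =>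
    intro hl
    obtain ⟨q, rfl⟩ : ∃ q, p = q + 1 := ⟨p - 1, by simp at hl; omega⟩
    rw [← consB_single, HB_cons]
    exact sub_mem (consB_mem_LB _ (single_mem_LB (by simpa using hl) 1))
      (consB_mem_LB _ (ih (by simpa using hl)))

theorem M_mem_LB (A : DAlg X) {w : List X →₀ ℚ} {p : ℕ}
    (hw : w ∈ LB X (p + 1)) : DB A w - DV A w ∈ LB X p := by
  refine LB_ind (DB A - DV A) (LB X p) (p + 1) ?_ hw
  intro l
  clear hw
  induction l generalizing p with
  | nil => intro _; simp [DB_nil, DV_nil]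
  | cons y l' ih =>
    intro hl
    have hl' : l'.length ≤ p := by simpa using hl
    have key : (DB A - DV A) (Finsupp.single (y :: l') 1) =
        mergeHead A (A.e (Finsupp.single y 1)) (Finsupp.single l' 1)
          - consB (A.e (Finsupp.single y 1)) ((DB A - DV A) (Finsupp.single l' 1)) := by
      rw [← consB_single]
      simp only [LinearMap.sub_apply, DB_cons, DV_cons, map_sub]
      abel
    rw [key]
    refine sub_mem (mergeHead_mem_LB A _ (single_mem_LB hl' 1)) ?_
    cases p with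
    | zero =>
      have : l' = [] := by simpa using hl'
      subst this
      simp [DB_nil, DV_nil]
    | succ q => exact consB_mem_LB _ (ih hl')

theorem LB_zero {w : List X →₀ ℚ} (hw : w ∈ LB X 0) : w = (w []) • Finsupp.single [] (1 : ℚ) := by
  ext l
  by_cases hl : l = []
  · subst hl; simp
  · have : w l = 0 := by
      by_contra h
      have : l ∈ w.support := by simpa using h
      have h2 := hw this
      simp at h2
      exact hl h2
    rw [this]
    have h3 : ¬ ([] = l) := fun h => hl h.symm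
    simp [h3]

theorem mem_LB_some (w : List X →₀ ℚ) : ∃ p, w ∈ LB X p := by
  refine ⟨w.support.sup List.length, ?_⟩
  intro l hl
  exact Finset.le_sup (f := List.length) hl

/-- The splitting data extracted from exactness of the kernel. -/
theorem exists_contr (A : DAlg X) (A' : DAlg X') (f : (X →₀ ℚ) →ₗ[ℚ] (X' →₀ ℚ)) (hf : IsMor A A' f)
    (hsurj : Function.Surjective f)
    (hker : ∀ x, f x = 0 → A.d x = 0 → ∃ y, f y = 0 ∧ A.d y = x) :
    ∃ (s : (X' →₀ ℚ) →ₗ[ℚ] (X →₀ ℚ)) (H : (X →₀ ℚ) →ₗ[ℚ] (X →₀ ℚ)),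
      (∀ a, f (s a) = a) ∧ (∀ a, s (A'.d a) = A.d (s a)) ∧ (∀ a, s (A'.e a) = A.e (s a)) ∧
      (∀ a, f (H a) = 0) ∧ (∀ a, H (A.e a) = - A.e (H a)) ∧
      (∀ a, A.d (H a) + H (A.d a) = a - s (f a)) := by
  classical
  obtain ⟨s0, hs0⟩ := LinearMap.exists_rightInverse_of_surjective f (LinearMap.range_eq_top.2 hsurj)
  have hs0' : ∀ a, f (s0 a) = a := fun a => LinearMap.congr_fun hs0 a
  -- a linear partial inverse of `d` on the kernel
  obtain ⟨T, hT⟩ : ∃ T : (X →₀ ℚ) →ₗ[ℚ] (X →₀ ℚ), ∀ z, f z = 0 → A.d z = 0 → f (T z) = 0 ∧ A.d (T z) = z := by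
    let K : Submodule ℚ (X →₀ ℚ) := LinearMap.ker f
    let Z : Submodule ℚ (X →₀ ℚ) := LinearMap.ker f ⊓ LinearMap.ker A.d
    let δ : K →ₗ[ℚ] Z := (A.d.comp K.subtype).codRestrict Z (by
      intro c
      refine ⟨?_, ?_⟩
      · have : f c.1 = 0 := c.2
        simp [LinearMap.mem_ker, hf.d, this]
      · simp [LinearMap.mem_ker, A.dd])
    have hδ : Function.Surjective δ := by
      rintro ⟨z, hz1, hz2⟩
      obtain ⟨y, hy1, hy2⟩ := hker z hz1 hz2
      exact ⟨⟨y, hy1⟩, Subtype.ext hy2⟩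
    obtain ⟨t, ht⟩ := LinearMap.exists_rightInverse_of_surjective δ (LinearMap.range_eq_top.2 hδ)
    obtain ⟨pr, hpr⟩ := LinearMap.exists_leftInverse_of_injective Z.subtype (Submodule.ker_subtype Z)
    refine ⟨K.subtype.comp (t.comp pr), ?_⟩
    intro z h1 h2
    have hz : pr z = ⟨z, h1, h2⟩ := LinearMap.congr_fun hpr ⟨z, h1, h2⟩
    refine ⟨?_, ?_⟩
    · exact (t (pr z)).2
    · have := LinearMap.congr_fun ht ⟨z, h1, h2⟩
      have h3 := congrArg Subtype.val this
      simp only [LinearMap.comp_apply, hz]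
      exact h3
  let s1 : (X' →₀ ℚ) →ₗ[ℚ] (X →₀ ℚ) := (1/2 : ℚ) • (s0 + A.e.comp (s0.comp A'.e))
  have hs1 : ∀ a, f (s1 a) = a := by
    intro a
    simp only [s1, LinearMap.smul_apply, LinearMap.add_apply, LinearMap.comp_apply, map_smul, map_add,
      hf.e, hs0', A'.ee]
    rw [← two_smul ℚ a, smul_smul]; norm_num
  have hs1e : ∀ a, s1 (A'.e a) = A.e (s1 a) := by
    intro a
    simp only [s1, LinearMap.smul_apply, LinearMap.add_apply, LinearMap.comp_apply, map_smul, map_add,
      A'.ee, A.ee]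
    rw [add_comm]
  let h0 : (X →₀ ℚ) →ₗ[ℚ] (X →₀ ℚ) := T - T.comp (T.comp A.d)
  have h0K : ∀ x, f x = 0 → f (h0 x) = 0 ∧ A.d (h0 x) + h0 (A.d x) = x := by
    intro x hx
    have hdx : f (A.d x) = 0 := by rw [hf.d, hx, map_zero]
    obtain ⟨h1, h2⟩ := hT (A.d x) hdx (A.dd x)
    have hz : f (x - T (A.d x)) = 0 := by rw [map_sub, hx, h1, sub_zero]
    have hz2 : A.d (x - T (A.d x)) = 0 := by rw [map_sub, h2, sub_self]
    obtain ⟨h3, h4⟩ := hT _ hz hz2
    have e1 : h0 x = T (x - T (A.d x)) := by simp [h0]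
    have e2 : h0 (A.d x) = T (A.d x) := by simp [h0, A.dd]
    rw [e1, e2]
    refine ⟨h3, ?_⟩
    rw [h4]; abel
  let h1 : (X →₀ ℚ) →ₗ[ℚ] (X →₀ ℚ) := (1/2 : ℚ) • (h0 - A.e.comp (h0.comp A.e))
  have h1e : ∀ a, h1 (A.e a) = - A.e (h1 a) := by
    intro a
    simp only [h1, LinearMap.smul_apply, LinearMap.sub_apply, LinearMap.comp_apply, map_smul, map_sub,
      A.ee]
    rw [← smul_neg]; congr 1; abel
  have h1K : ∀ x, f x = 0 → f (h1 x) = 0 ∧ A.d (h1 x) + h1 (A.d x) = x := by
    intro x hx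
    have hex : f (A.e x) = 0 := by rw [hf.e, hx, map_zero]
    obtain ⟨u1, u2⟩ := h0K x hx
    obtain ⟨v1, v2⟩ := h0K _ hex
    refine ⟨?_, ?_⟩
    · simp only [h1, LinearMap.smul_apply, LinearMap.sub_apply, LinearMap.comp_apply, map_smul, map_sub,
        hf.e, u1, v1, map_zero, sub_zero, smul_zero]
    · have e3 : A.e (A.d (h0 (A.e x)) + h0 (A.d (A.e x))) = x := by rw [v2, A.ee]
      have e4 : A.d (A.e (h0 (A.e x))) = - A.e (A.d (h0 (A.e x))) := A.de _
      have e5 : A.e (A.d x) = - A.d (A.e x) := by rw [A.de]; simp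
      have e6 : A.d (h1 x) + h1 (A.d x) = (1/2 : ℚ) •
          ((A.d (h0 x) + h0 (A.d x)) + A.e (A.d (h0 (A.e x)) + h0 (A.d (A.e x)))) := by
        simp only [h1, LinearMap.smul_apply, LinearMap.sub_apply, LinearMap.comp_apply, map_smul,
          map_sub, e4, e5, map_neg, map_add]
        rw [← smul_add]; congr 1; abel
      rw [e6, u2, e3, ← two_smul ℚ x, smul_smul]; norm_num
  let kk : (X' →₀ ℚ) →ₗ[ℚ] (X →₀ ℚ) := A.d.comp s1 - s1.comp A'.d
  have hkk : ∀ a, f (kk a) = 0 := by
    intro a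
    simp only [kk, LinearMap.sub_apply, LinearMap.comp_apply, map_sub, hf.d, hs1, sub_self]
  have hkke : ∀ a, kk (A'.e a) = - A.e (kk a) := by
    intro a
    simp only [kk, LinearMap.sub_apply, LinearMap.comp_apply, map_sub, hs1e, A.de, A'.de, map_neg]
    abel
  let s : (X' →₀ ℚ) →ₗ[ℚ] (X →₀ ℚ) := s1 - h1.comp kk
  have hfs : ∀ a, f (s a) = a := by
    intro a
    simp only [s, LinearMap.sub_apply, LinearMap.comp_apply, map_sub, hs1, (h1K _ (hkk a)).1, sub_zero]
  have hse : ∀ a, s (A'.e a) = A.e (s a) := by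
    intro a
    simp only [s, LinearMap.sub_apply, LinearMap.comp_apply, map_sub, hs1e, hkke, map_neg, h1e, neg_neg]
  have hsd : ∀ a, s (A'.d a) = A.d (s a) := by
    intro a
    have e1 := (h1K _ (hkk a)).2
    have e2 : A.d (kk a) = - A.d (s1 (A'.d a)) := by
      simp [kk, A.dd]
    have e3 : kk (A'.d a) = A.d (s1 (A'.d a)) := by
      simp [kk, A'.dd]
    have e4 : kk a = A.d (s1 a) - s1 (A'.d a) := rfl
    rw [e2, map_neg] at e1
    simp only [s, LinearMap.sub_apply, LinearMap.comp_apply, map_sub, e3]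
    have e5 : A.d (h1 (kk a)) = A.d (s1 a) - s1 (A'.d a) + h1 (A.d (s1 (A'.d a))) := by
      rw [← e4]; nth_rewrite 2 [← e1]; abel
    rw [e5]; abel
  refine ⟨s, h1.comp (LinearMap.id - s.comp f), hfs, hsd, hse, ?_, ?_, ?_⟩
  · intro a
    simp only [LinearMap.sub_apply, LinearMap.comp_apply, LinearMap.id_apply]
    refine (h1K _ ?_).1
    rw [map_sub, hfs, sub_self]
  · intro a
    simp only [LinearMap.sub_apply, LinearMap.comp_apply, LinearMap.id_apply]
    rw [hf.e, hse, ← map_sub, h1e]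
  · intro a
    simp only [LinearMap.sub_apply, LinearMap.comp_apply, LinearMap.id_apply]
    rw [hf.d, hsd, ← map_sub A.d]
    refine (h1K _ ?_).2
    rw [map_sub, hfs, sub_self]

/-- The kernel of `mapB f` is exact. -/
theorem ker_exact (A : DAlg X) (A' : DAlg X') (f : (X →₀ ℚ) →ₗ[ℚ] (X' →₀ ℚ)) (hf : IsMor A A' f)
    (s : (X' →₀ ℚ) →ₗ[ℚ] (X →₀ ℚ)) (H : (X →₀ ℚ) →ₗ[ℚ] (X →₀ ℚ))
    (hfs : ∀ a, f (s a) = a) (hsd : ∀ a, s (A'.d a) = A.d (s a)) (hse : ∀ a, s (A'.e a) = A.e (s a))
    (hfH : ∀ a, f (H a) = 0) (hHe : ∀ a, H (A.e a) = - A.e (H a))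
    (hH : ∀ a, A.d (H a) + H (A.d a) = a - s (f a)) :
    ∀ (p : ℕ) (w : List X →₀ ℚ), w ∈ LB X p → mapB f w = 0 → DB A w = 0 →
      ∃ u, mapB f u = 0 ∧ DB A u = w := by
  have hfHB : ∀ w, mapB f (HB A (s.comp f) H w) = 0 := by
    intro w
    have : (mapB f).comp (HB A (s.comp f) H) = 0 := by
      apply listInd
      · simp [HB_nil]
      · intro a w ih
        simp only [LinearMap.comp_apply, LinearMap.zero_apply] at ih ⊢
        rw [HB_cons, map_sub, mapB_cons, mapB_cons, ih, hfH]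
        simp
    exact LinearMap.congr_fun this w
  have hsf : ∀ w, mapB f w = 0 → mapB (s.comp f) w = 0 := by
    have : mapB (s.comp f) = (mapB s).comp (mapB f) := by
      apply listInd
      · simp [mapB_nil]
      · intro a w ih
        simp only [LinearMap.comp_apply] at ih ⊢
        rw [mapB_cons, mapB_cons, mapB_cons, ih]
        rfl
    intro w hw
    rw [this, LinearMap.comp_apply, hw, map_zero]
  intro p
  induction p with
  | zero =>
    intro w hw h1 h2
    have hw0 := LB_zero hw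
    rw [hw0, map_smul, mapB_nil] at h1
    have : w [] = 0 := by
      by_contra h
      simp [h] at h1
    exact ⟨0, by simp, by rw [hw0, this]; simp⟩
  | succ p ih =>
    intro w hw h1 h2
    set u0 := HB A (s.comp f) H w with hu0
    have hDV := DV_HB A (s.comp f) H
      (fun a => by simp only [LinearMap.comp_apply]; rw [hf.d, hsd])
      (fun a => by simp only [LinearMap.comp_apply]; rw [hf.e, hse]) hHe hH w
    rw [hsf w h1, sub_zero] at hDV
    have hM1 : DB A w - DV A w ∈ LB X p := M_mem_LB A hw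
    have hM2 : DB A u0 - DV A u0 ∈ LB X p := M_mem_LB A (HB_mem_LB A _ _ hw)
    have key : w - DB A u0 = - (HB A (s.comp f) H (DB A w - DV A w)) - (DB A u0 - DV A u0) := by
      have e1 : w = DV A u0 + HB A (s.comp f) H (DV A w) := hDV.symm
      rw [h2, zero_sub, map_neg]
      nth_rewrite 1 [e1]
      abel
    have hmem : w - DB A u0 ∈ LB X p := by
      rw [key]
      exact sub_mem (neg_mem (HB_mem_LB A _ _ hM1)) hM2
    obtain ⟨u1, h3, h4⟩ := ih (w - DB A u0) hmem
      (by rw [map_sub, h1, mapB_DB A A' f hf, hfHB, map_zero, sub_zero])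
      (by rw [map_sub, h2, DB_DB, sub_zero])
    refine ⟨u0 + u1, by rw [map_add, hfHB, h3, add_zero], by rw [map_add, h4]; abel⟩

/-- **L1.** Along a surjective morphism with exact kernel, bar cycles lift to bar cycles, and a bar cycle whose
image is a boundary is a boundary. -/
theorem L1 (A : DAlg X) (A' : DAlg X') (f : (X →₀ ℚ) →ₗ[ℚ] (X' →₀ ℚ)) (hf : IsMor A A' f)
    (hsurj : Function.Surjective f)
    (hker : ∀ x, f x = 0 → A.d x = 0 → ∃ y, f y = 0 ∧ A.d y = x) :
    (∀ c', DB A' c' = 0 → ∃ c, DB A c = 0 ∧ mapB f c = c') ∧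
    (∀ c, DB A c = 0 → (∃ b', DB A' b' = mapB f c) → ∃ b, DB A b = c) := by
  obtain ⟨s, H, hfs, hsd, hse, hfH, hHe, hH⟩ := exists_contr A A' f hf hsurj hker
  have hex := ker_exact A A' f hf s H hfs hsd hse hfH hHe hH
  have hms : ∀ w, mapB f (mapB s w) = w := by
    intro w
    have : (mapB f).comp (mapB s) = LinearMap.id := by
      apply listInd
      · simp [mapB_nil]
      · intro a w ih
        simp only [LinearMap.comp_apply, LinearMap.id_apply] at ih ⊢
        rw [mapB_cons, mapB_cons, ih, hfs]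
    exact LinearMap.congr_fun this w
  refine ⟨?_, ?_⟩
  · intro c' hc'
    obtain ⟨p, hp⟩ := mem_LB_some (DB A (mapB s c'))
    obtain ⟨u, hu1, hu2⟩ := hex p (DB A (mapB s c')) hp
      (by rw [mapB_DB A A' f hf, hms, hc']) (DB_DB A _)
    exact ⟨mapB s c' - u, by rw [map_sub, hu2, sub_self], by rw [map_sub, hms, hu1, sub_zero]⟩
  · rintro c hc ⟨b', hb'⟩
    obtain ⟨p, hp⟩ := mem_LB_some (c - DB A (mapB s b'))
    obtain ⟨u, hu1, hu2⟩ := hex p (c - DB A (mapB s b')) hp
      (by rw [map_sub, mapB_DB A A' f hf, hms, hb', sub_self])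
      (by rw [map_sub, hc, DB_DB, sub_zero])
    exact ⟨mapB s b' + u, by rw [map_add, hu2]; abel⟩

theorem mapB_comp {X'' : Type*} (g : (X' →₀ ℚ) →ₗ[ℚ] (X'' →₀ ℚ)) (f : (X →₀ ℚ) →ₗ[ℚ] (X' →₀ ℚ))
    (w : List X →₀ ℚ) : mapB (g ∘ₗ f) w = mapB g (mapB f w) := by
  have : mapB (g ∘ₗ f) = (mapB g).comp (mapB f) := by
    apply listInd
    · simp [mapB_nil]
    · intro a w ih
      simp only [LinearMap.comp_apply] at ih ⊢
      rw [mapB_cons, mapB_cons, mapB_cons, ih]
      rfl
  exact LinearMap.congr_fun this w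

/-- Morphisms descend along surjective morphisms. -/
theorem IsMor.descend {Y Y' : Type*} {A : DAlg X} {A' : DAlg X'} {B : DAlg Y} {B' : DAlg Y'}
    {f : (X →₀ ℚ) →ₗ[ℚ] (X' →₀ ℚ)} {p : (X →₀ ℚ) →ₗ[ℚ] (Y →₀ ℚ)} {q : (X' →₀ ℚ) →ₗ[ℚ] (Y' →₀ ℚ)}
    {g : (Y →₀ ℚ) →ₗ[ℚ] (Y' →₀ ℚ)} (hf : IsMor A A' f) (hp : IsMor A B p) (hq : IsMor A' B' q)
    (hs : Function.Surjective p) (h : ∀ a, g (p a) = q (f a)) : IsMor B B' g where
  d := by
    intro b
    obtain ⟨a, rfl⟩ := hs b
    rw [← hp.d, h, hf.d, hq.d, h]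
  e := by
    intro b
    obtain ⟨a, rfl⟩ := hs b
    rw [← hp.e, h, hf.e, hq.e, h]
  mul := by
    intro b c
    obtain ⟨a, rfl⟩ := hs b
    obtain ⟨a', rfl⟩ := hs c
    rw [← hp.mul, h, hf.mul, hq.mul, h, h]

section cmp

variable {Y ι κ : Type*}

open Classical in
/-- homogeneous component -/
noncomputable def cmp (φ : X → ι) (i : ι) : (X →₀ ℚ) →ₗ[ℚ] (X →₀ ℚ) :=
  Finsupp.linearCombination ℚ (fun x => if φ x = i then Finsupp.single x 1 else 0)

theorem cmp_single_eq (φ : X → ι) (x : X) : cmp φ (φ x) (Finsupp.single x 1) = Finsupp.single x 1 := by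
  simp [cmp]

theorem cmp_single_ne (φ : X → ι) (i : ι) (x : X) (h : φ x ≠ i) : cmp φ i (Finsupp.single x 1) = 0 := by
  simp [cmp, h]

theorem cmp_apply_eq (φ : X → ι) (i : ι) (w : X →₀ ℚ) (x : X) (h : φ x = i) : cmp φ i w x = w x := by
  classical
  induction w using Finsupp.induction_linear with
  | zero => simp
  | add f g hf hg => rw [map_add, Finsupp.add_apply, Finsupp.add_apply, hf, hg]
  | single y r =>
    have : (Finsupp.single y r : X →₀ ℚ) = r • Finsupp.single y (1 : ℚ) := by simp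
    rw [this, map_smul]
    by_cases hy : φ y = i
    · subst hy; rw [cmp_single_eq]
    · rw [cmp_single_ne φ i y hy]
      have : y ≠ x := fun e => hy (e ▸ h)
      simp [this]

theorem cmp_apply_ne (φ : X → ι) (i : ι) (w : X →₀ ℚ) (x : X) (h : φ x ≠ i) : cmp φ i w x = 0 := by
  classical
  induction w using Finsupp.induction_linear with
  | zero => simp
  | add f g hf hg => rw [map_add, Finsupp.add_apply, hf, hg, add_zero]
  | single y r =>
    have : (Finsupp.single y r : X →₀ ℚ) = r • Finsupp.single y (1 : ℚ) := by simp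
    rw [this, map_smul]
    by_cases hy : φ y = i
    · subst hy; rw [cmp_single_eq]
      have : y ≠ x := fun e => h (e ▸ rfl)
      simp [this]
    · rw [cmp_single_ne φ i y hy]; simp

theorem cmp_mem (φ : X → ι) (i : ι) (w : X →₀ ℚ) : cmp φ i w ∈ Finsupp.supported ℚ ℚ {x | φ x = i} := by
  intro x hx
  by_contra h
  exact (Finsupp.mem_support_iff.1 hx) (cmp_apply_ne φ i w x h)

theorem cmp_mem_supp (φ : X → ι) (i : ι) (T : Set X) (w : X →₀ ℚ) (hw : w ∈ Finsupp.supported ℚ ℚ T) :
    cmp φ i w ∈ Finsupp.supported ℚ ℚ T := by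
  intro x hx
  by_cases h : φ x = i
  · have := Finsupp.mem_support_iff.1 hx
    rw [cmp_apply_eq φ i w x h] at this
    exact hw (Finsupp.mem_support_iff.2 this)
  · exact absurd (cmp_apply_ne φ i w x h) (Finsupp.mem_support_iff.1 hx)

theorem cmp_of_eq (φ : X → ι) (i : ι) (w : X →₀ ℚ) (h : ∀ x ∈ w.support, φ x = i) : cmp φ i w = w := by
  ext x
  by_cases hx : φ x = i
  · exact cmp_apply_eq φ i w x hx
  · rw [cmp_apply_ne φ i w x hx]
    by_contra h2
    exact hx (h x (Finsupp.mem_support_iff.2 (fun e => h2 e.symm)))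

theorem cmp_of_ne (φ : X → ι) (i : ι) (w : X →₀ ℚ) (h : ∀ x ∈ w.support, φ x ≠ i) : cmp φ i w = 0 := by
  ext x
  by_cases hx : φ x = i
  · rw [cmp_apply_eq φ i w x hx]
    by_contra h2
    exact (h x (Finsupp.mem_support_iff.2 h2)) hx
  · exact cmp_apply_ne φ i w x hx

theorem cmp_comm (F : (X →₀ ℚ) →ₗ[ℚ] (Y →₀ ℚ)) (φ : X → ι) (ψ : Y → κ) (i : ι) (j : κ)
    (h1 : ∀ x, φ x = i → ∀ y ∈ (F (Finsupp.single x 1)).support, ψ y = j)
    (h2 : ∀ x, φ x ≠ i → ∀ y ∈ (F (Finsupp.single x 1)).support, ψ y ≠ j) (w : X →₀ ℚ) :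
    cmp ψ j (F w) = F (cmp φ i w) := by
  have : (cmp ψ j).comp F = F.comp (cmp φ i) := by
    ext x : 2
    show cmp ψ j (F (Finsupp.single x 1)) = F (cmp φ i (Finsupp.single x 1))
    by_cases hx : φ x = i
    · rw [cmp_of_eq ψ j _ (h1 x hx)]
      subst hx; rw [cmp_single_eq]
    · rw [cmp_of_ne ψ j _ (h2 x hx), cmp_single_ne φ i x hx, map_zero]
  exact LinearMap.congr_fun this w

theorem cmp_sum [DecidableEq ι] (φ : X → ι) (w : X →₀ ℚ) :
    ∑ i ∈ w.support.image φ, cmp φ i w = w := by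
  ext x
  rw [Finsupp.finsetSum_apply]
  by_cases hx : w x = 0
  · rw [hx]
    refine Finset.sum_eq_zero fun i _ => ?_
    by_cases h : φ x = i
    · rw [cmp_apply_eq φ i w x h, hx]
    · exact cmp_apply_ne φ i w x h
  · rw [Finset.sum_eq_single (φ x)]
    · exact cmp_apply_eq φ _ w x rfl
    · intro i _ hi
      exact cmp_apply_ne φ i w x (fun e => hi e.symm)
    · intro h
      exact absurd (Finset.mem_image_of_mem φ (Finsupp.mem_support_iff.2 hx)) h

end cmp

end Pool.Agent.LibSt46
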